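import Mathlib
import Pool.Agent.J4H46.EL.Stm

set_option autoImplicit false

open scoped TensorProduct
open CategoryTheory AlgebraicGeometry

universe u

namespace Pool.Agent.J4H81.EL

open Pool.Agent.Helper226 Pool.Agent.J4H46.EL

/-- the intermediate field of the elements which are algebraic over the ring generated by `S` -/
noncomputable def algIn {K Ω : Type u} [Field K] [Field Ω] [Algebra K Ω] (S : Set Ω) :
    IntermediateField K Ω where
  toSubalgebra := (Subalgebra.algebraicClosure (Algebra.adjoin K S) Ω).restrictScalars K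
  inv_mem' x hx := by
    have hx' : IsAlgebraic (Algebra.adjoin K S) x := hx
    exact hx'.inv

theorem mem_algIn {K Ω : Type u} [Field K] [Field Ω] [Algebra K Ω] (S : Set Ω) (x : Ω) :
    x ∈ algIn (K := K) S ↔ IsAlgebraic (Algebra.adjoin K S) x := Iff.rfl

theorem le_algIn {K Ω : Type u} [Field K] [Field Ω] [Algebra K Ω] (S : Set Ω)
    (L : IntermediateField K Ω) (s : Set L) (hs : ∀ x ∈ s, (x : Ω) ∈ S)
    [halg : Algebra.IsAlgebraic (Algebra.adjoin K s) L] : L ≤ algIn (K := K) S := by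
  intro x hx
  rw [mem_algIn]
  have h1 : IsAlgebraic (Algebra.adjoin K s) (⟨x, hx⟩ : L) := halg.isAlgebraic _
  have hle : (Algebra.adjoin K s).map L.val ≤ Algebra.adjoin K S := by
    rw [AlgHom.map_adjoin]
    refine Algebra.adjoin_mono ?_
    rintro _ ⟨y, hy, rfl⟩
    exact hs y hy
  let f : Algebra.adjoin K s →+* Algebra.adjoin K S :=
    { toFun := fun y => ⟨L.val y.1, hle ⟨y.1, y.2, rfl⟩⟩
      map_one' := by ext; simp
      map_mul' := fun a b => by ext; simp
      map_zero' := by ext; simp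
      map_add' := fun a b => by ext; simp }
  have hf : Function.Injective f := by
    intro a b hab
    have : (a : L) = (b : L) := by
      have := congrArg (fun z : Algebra.adjoin K S => (z : Ω)) hab
      exact Subtype.ext this
    exact Subtype.ext this
  exact h1.ringHom_of_comp_eq f (algebraMap L Ω) hf (by ext y; rfl)

theorem t_CMP : S_CMP.{u} := by
  intro K Ω _ _ _ L₁ L₂
  obtain ⟨s₁, h₁⟩ := exists_isTranscendenceBasis K L₁
  obtain ⟨s₂, h₂⟩ := exists_isTranscendenceBasis K L₂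
  have a₁ : Algebra.IsAlgebraic (Algebra.adjoin K s₁) L₁ := by
    have := h₁.isAlgebraic
    rwa [Subtype.range_coe] at this
  have a₂ : Algebra.IsAlgebraic (Algebra.adjoin K s₂) L₂ := by
    have := h₂.isAlgebraic
    rwa [Subtype.range_coe] at this
  rw [← h₁.cardinalMk_eq_trdeg, ← h₂.cardinalMk_eq_trdeg]
  let i₁ : L₁ → (L₁ ⊔ L₂ : IntermediateField K Ω) := fun x => ⟨x, (le_sup_left : L₁ ≤ L₁ ⊔ L₂) x.2⟩
  let i₂ : L₂ → (L₁ ⊔ L₂ : IntermediateField K Ω) := fun x => ⟨x, (le_sup_right : L₂ ≤ L₁ ⊔ L₂) x.2⟩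
  let t : Set (L₁ ⊔ L₂ : IntermediateField K Ω) := i₁ '' s₁ ∪ i₂ '' s₂
  have ht : Cardinal.mk t ≤ Cardinal.mk s₁ + Cardinal.mk s₂ :=
    (Cardinal.mk_union_le _ _).trans (add_le_add Cardinal.mk_image_le Cardinal.mk_image_le)
  refine le_trans ?_ ht
  have hle : (L₁ ⊔ L₂ : IntermediateField K Ω) ≤ algIn (K := K) (Subtype.val '' t) := by
    refine sup_le (le_algIn _ L₁ s₁ ?_) (le_algIn _ L₂ s₂ ?_)
    · intro x hx
      exact ⟨i₁ x, Or.inl ⟨x, hx, rfl⟩, rfl⟩
    · intro x hx
      exact ⟨i₂ x, Or.inr ⟨x, hx, rfl⟩, rfl⟩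
  have halg : Algebra.IsAlgebraic (Algebra.adjoin K t) (L₁ ⊔ L₂ : IntermediateField K Ω) := by
    refine ⟨fun x => ?_⟩
    have hx : IsAlgebraic (Algebra.adjoin K (Subtype.val '' t)) (x : Ω) := hle x.2
    have e : Algebra.adjoin K (Subtype.val '' t) =
        (Algebra.adjoin K t).map (L₁ ⊔ L₂ : IntermediateField K Ω).val := by
      rw [AlgHom.map_adjoin]; rfl
    let f : Algebra.adjoin K t →+* Algebra.adjoin K (Subtype.val '' t) :=
      { toFun := fun y => ⟨(L₁ ⊔ L₂ : IntermediateField K Ω).val y.1, by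
          rw [e]; exact ⟨y.1, y.2, rfl⟩⟩
        map_one' := by ext; simp
        map_mul' := fun a b => by ext; simp
        map_zero' := by ext; simp
        map_add' := fun a b => by ext; simp }
    have hf : Function.Surjective f := by
      rintro ⟨y, hy⟩
      have hy' := hy
      rw [e] at hy'
      obtain ⟨z, hz, rfl⟩ := hy'
      exact ⟨⟨z, hz⟩, rfl⟩
    exact hx.of_ringHom_of_comp_eq f (algebraMap (L₁ ⊔ L₂ : IntermediateField K Ω) Ω) hf
      (algebraMap (L₁ ⊔ L₂ : IntermediateField K Ω) Ω).injective (by ext y; rfl)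
  exact Algebra.IsAlgebraic.trdeg_le_cardinalMk K t

end Pool.Agent.J4H81.EL
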