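import Mathlib
import Pool.Agent.J4H46.EL.Stm

set_option autoImplicit false

open scoped TensorProduct
open CategoryTheory AlgebraicGeometry

universe u

namespace Pool.Agent.J4H81.EL

open Pool.Agent.Helper226 Pool.Agent.J4H46.EL

theorem t_TRD : S_TRD.{u} := by
  intro K A κ L _ _ _ _ _ _ _ _ π φ hπ
  have hk : RingHom.ker φ ≤ RingHom.ker π := by
    have h1 : RingHom.ker π = IsLocalRing.maximalIdeal A := by
      have : (RingHom.ker π).IsMaximal := RingHom.ker_isMaximal_of_surjective π hπ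
      exact IsLocalRing.eq_maximalIdeal this
    rw [h1]
    exact IsLocalRing.le_maximalIdeal (RingHom.ker_ne_top φ)
  have h2 : Algebra.trdeg K κ ≤ Algebra.trdeg K (A ⧸ RingHom.ker φ) := by
    refine trdeg_le_of_surjective
      (Ideal.Quotient.liftₐ (RingHom.ker φ) π (fun a ha => hk ha)) ?_
    intro y
    obtain ⟨a, rfl⟩ := hπ y
    exact ⟨Ideal.Quotient.mk _ a, rfl⟩
  refine h2.trans (trdeg_le_of_injective (Ideal.kerLiftAlg φ) (Ideal.kerLiftAlg_injective φ))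

theorem t_NUM : S_NUM := by
  intro C R
  obtain ⟨m, hm⟩ : ∃ m : ℕ, m = C + R + 2 := ⟨_, rfl⟩
  have h2 : (4 * m).choose 2 = 2 * (m * (4 * m - 1)) := by
    rw [Nat.choose_two_right]
    have : 4 * m * (4 * m - 1) = 2 * (2 * (m * (4 * m - 1))) := by ring
    rw [this]
    exact Nat.mul_div_cancel_left _ (by norm_num)
  have h3 : 3 * (4 * m).choose 3 = (4 * m).choose 2 * (4 * m - 2) := by
    have := Nat.choose_succ_right_eq (4 * m) 2
    rw [← this, mul_comm]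
  have h4 : 1 ≤ m * (4 * m - 1) := by
    have : 1 ≤ 4 * m - 1 := by omega
    nlinarith
  refine ⟨4 * m - 2, m * (4 * m - 1), ?_, ?_, ?_⟩
  · rw [show 4 * m - 2 + 2 = 4 * m by omega, h2]; omega
  · rw [show 4 * m - 2 + 2 = 4 * m by omega]
    have h5 : R + 1 ≤ m * (4 * m - 1) := by
      have : 1 ≤ 4 * m - 1 := by omega
      nlinarith
    omega
  · rw [show 4 * m - 2 + 2 = 4 * m by omega]
    have h6 : (4 * m).choose 2 - m * (4 * m - 1) = m * (4 * m - 1) := by rw [h2]; omega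
    rw [h6]
    obtain ⟨t, ht⟩ : ∃ t, t = m * (4 * m - 1) := ⟨_, rfl⟩
    rw [← ht] at h2 h4 ⊢
    have h7 : 3 * (C * ((4 * m).choose 3 + t)) = C * (2 * t * (4 * m - 2) + 3 * t) := by
      rw [h2] at h3
      calc 3 * (C * ((4 * m).choose 3 + t)) = C * (3 * (4 * m).choose 3 + 3 * t) := by ring
        _ = _ := by rw [h3]
    have h8 : C * (2 * t * (4 * m - 2) + 3 * t) ≤ t * (8 * m * C) := by
      obtain ⟨k, hk⟩ : ∃ k, 4 * m = k + 2 := ⟨4 * m - 2, by omega⟩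
      have : 8 * m = 2 * k + 4 := by omega
      rw [hk, this]
      have : k + 2 - 2 = k := by omega
      rw [this]
      nlinarith [Nat.zero_le (C * t)]
    have h9 : 8 * m * C < 3 * t := by
      rw [ht]
      have : 4 * C < 4 * m - 1 := by omega
      have h10 : m * (4 * C) < m * (4 * m - 1) := by
        apply Nat.mul_lt_mul_of_pos_left this (by omega)
      nlinarith
    have h11 : t * (8 * m * C) < t * (3 * t) := Nat.mul_lt_mul_of_pos_left h9 (by omega)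
    nlinarith

/-- the map of the quotients -/
theorem t_FOD : S_FOD.{u} := by
  intro K κ Ω B _ _ _ _ _ _ _ ψ L a J' hJ hψ
  obtain ⟨hfin, -, hrk⟩ := hJ
  have := hfin
  have hfr : Module.finrank κ ((κ ⊗[K] B) ⧸ J') = a := by
    have := hrk ⊥
    rw [Module.rankAtStalk_eq_finrank_of_free] at this
    simpa using this
  let bs : Module.Basis (Fin a) κ ((κ ⊗[K] B) ⧸ J') := Module.finBasisOfFinrankEq κ _ hfr
  let f : ((κ ⊗[K] B) ⧸ J') →+* ((Ω ⊗[K] B) ⧸ bcI B ψ J') :=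
    Ideal.quotientMap (bcI B ψ J') (Algebra.TensorProduct.map ψ (AlgHom.id K B)).toRingHom
      (Ideal.le_comap_map)
  refine ⟨fun i => f (bs i), ?_⟩
  intro b
  have h1 : Ideal.Quotient.mk (bcI B ψ J') ((1 : Ω) ⊗ₜ[K] b) =
      f (Ideal.Quotient.mk J' ((1 : κ) ⊗ₜ[K] b)) := by
    simp [f, Ideal.quotientMap_mk]
  have h2 : ∀ (c : κ) (x : (κ ⊗[K] B) ⧸ J'), f (c • x) = (⟨ψ c, hψ ⟨c, rfl⟩⟩ : L) • f x := by
    intro c x
    obtain ⟨y, rfl⟩ := Ideal.Quotient.mk_surjective x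
    have h3 : c • (Ideal.Quotient.mk J' y) = Ideal.Quotient.mk J' ((c ⊗ₜ[K] (1 : B)) * y) := by
      rw [← Ideal.Quotient.mk_eq_mk, ← Submodule.Quotient.mk_smul, Algebra.smul_def]
      rfl
    have h4 : (⟨ψ c, hψ ⟨c, rfl⟩⟩ : L) • (f (Ideal.Quotient.mk J' y)) =
        Ideal.Quotient.mk (bcI B ψ J') (((ψ c) ⊗ₜ[K] (1 : B)) *
          (Algebra.TensorProduct.map ψ (AlgHom.id K B)) y) := by
      change (ψ c) • (Ideal.Quotient.mk (bcI B ψ J')
          ((Algebra.TensorProduct.map ψ (AlgHom.id K B)) y)) = _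
      rw [← Ideal.Quotient.mk_eq_mk, ← Submodule.Quotient.mk_smul, Algebra.smul_def]
      rfl
    rw [h3, h4]
    simp [f, Ideal.quotientMap_mk]
  rw [h1, ← bs.sum_repr (Ideal.Quotient.mk J' ((1 : κ) ⊗ₜ[K] b)), map_sum]
  refine Submodule.sum_mem _ fun i _ => ?_
  rw [h2]
  exact Submodule.smul_mem _ _ (Submodule.subset_span ⟨i, rfl⟩)

theorem exists_fin_span {L V : Type*} [Field L] [AddCommGroup V] [Module L V] (N : Submodule L V)
    [FiniteDimensional L N] {n : ℕ} (h : Module.finrank L N ≤ n) :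
    ∃ v : Fin n → V, N ≤ Submodule.span L (Set.range v) := by
  classical
  let b := Module.finBasis L N
  refine ⟨fun i => if h : (i : ℕ) < Module.finrank L N then (b ⟨i, h⟩ : V) else 0, ?_⟩
  intro x hx
  have h1 := b.sum_repr ⟨x, hx⟩
  have h2 : x = ∑ i, b.repr ⟨x, hx⟩ i • (b i : V) := by
    have h3 := congrArg (N.subtype) h1
    rw [map_sum] at h3
    simpa only [map_smul, Submodule.subtype_apply] using h3.symm
  rw [h2]
  refine Submodule.sum_mem _ fun i _ => Submodule.smul_mem _ _ (Submodule.subset_span ?_)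
  exact ⟨⟨i, lt_of_lt_of_le i.2 h⟩, by simp⟩

theorem t_CUT : S_CUT.{u} := by
  intro K Ω B _ _ _ _ _ L a b J₁ J₂ h₁ h₂
  obtain ⟨v, hv⟩ := h₁
  obtain ⟨w, hw⟩ := h₂
  let g : ((Ω ⊗[K] B) ⧸ (J₁ ⊓ J₂)) →ₗ[L] (((Ω ⊗[K] B) ⧸ J₁) × ((Ω ⊗[K] B) ⧸ J₂)) :=
    LinearMap.prod ((Ideal.Quotient.factorₐ Ω (inf_le_left : J₁ ⊓ J₂ ≤ J₁)).toLinearMap.restrictScalars L)
      ((Ideal.Quotient.factorₐ Ω (inf_le_right : J₁ ⊓ J₂ ≤ J₂)).toLinearMap.restrictScalars L)
  have hg : Function.Injective g := by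
    rw [injective_iff_map_eq_zero]
    intro x hx
    obtain ⟨y, rfl⟩ := Ideal.Quotient.mk_surjective x
    have e1 : Ideal.Quotient.mk J₁ y = 0 := congrArg Prod.fst hx
    have e2 : Ideal.Quotient.mk J₂ y = 0 := congrArg Prod.snd hx
    rw [Ideal.Quotient.eq_zero_iff_mem] at e1 e2 ⊢
    exact ⟨e1, e2⟩
  let u : Fin (a + b) → (((Ω ⊗[K] B) ⧸ J₁) × ((Ω ⊗[K] B) ⧸ J₂)) :=
    Fin.append (fun i => (v i, 0)) (fun j => (0, w j))
  let N : Submodule L ((Ω ⊗[K] B) ⧸ (J₁ ⊓ J₂)) :=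
    Submodule.span L (Set.range fun x : B => Ideal.Quotient.mk (J₁ ⊓ J₂) ((1 : Ω) ⊗ₜ[K] x))
  have hN : N.map g ≤ Submodule.span L (Set.range u) := by
    rw [Submodule.map_span, Submodule.span_le]
    rintro _ ⟨_, ⟨x, rfl⟩, rfl⟩
    have e1 : Ideal.Quotient.mk J₁ ((1 : Ω) ⊗ₜ[K] x) ∈ Submodule.span L (Set.range v) := hv x
    have e2 : Ideal.Quotient.mk J₂ ((1 : Ω) ⊗ₜ[K] x) ∈ Submodule.span L (Set.range w) := hw x
    have e3 : g (Ideal.Quotient.mk (J₁ ⊓ J₂) ((1 : Ω) ⊗ₜ[K] x)) =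
        (LinearMap.inl L _ _ (Ideal.Quotient.mk J₁ ((1 : Ω) ⊗ₜ[K] x)) +
          LinearMap.inr L _ _ (Ideal.Quotient.mk J₂ ((1 : Ω) ⊗ₜ[K] x))) := by
      simp only [LinearMap.inl_apply, LinearMap.inr_apply, Prod.mk_add_mk, add_zero, zero_add]
      rfl
    rw [SetLike.mem_coe, e3]
    refine Submodule.add_mem _ ?_ ?_
    · have := Submodule.mem_map_of_mem (f := LinearMap.inl L ((Ω ⊗[K] B) ⧸ J₁) ((Ω ⊗[K] B) ⧸ J₂)) e1
      rw [Submodule.map_span] at this
      refine Submodule.span_mono ?_ this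
      rintro _ ⟨_, ⟨i, rfl⟩, rfl⟩
      exact ⟨Fin.castAdd b i, by simp [u]⟩
    · have := Submodule.mem_map_of_mem (f := LinearMap.inr L ((Ω ⊗[K] B) ⧸ J₁) ((Ω ⊗[K] B) ⧸ J₂)) e2
      rw [Submodule.map_span] at this
      refine Submodule.span_mono ?_ this
      rintro _ ⟨_, ⟨i, rfl⟩, rfl⟩
      exact ⟨Fin.natAdd a i, by simp [u]⟩
  have : FiniteDimensional L (Submodule.span L (Set.range u)) :=
    FiniteDimensional.span_of_finite L (Set.finite_range u)
  have hfd : FiniteDimensional L (N.map g) := Submodule.finiteDimensional_of_le hN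
  have hle : Module.finrank L (N.map g) ≤ a + b :=
    (Submodule.finrank_mono hN).trans ((finrank_range_le_card u).trans (by simp))
  let e := Submodule.equivMapOfInjective g hg N
  have : FiniteDimensional L N := e.symm.finiteDimensional
  have hle' : Module.finrank L N ≤ a + b := by rw [e.finrank_eq]; exact hle
  obtain ⟨z, hz⟩ := exists_fin_span N hle'
  exact ⟨z, fun x => hz (Submodule.subset_span ⟨x, rfl⟩)⟩

end Pool.Agent.J4H81.EL
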